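import Pool.Agent.Helper29.ETC.D1234
import Pool.Agent.Helper8.ETC.G12

/-!
# ETC block D2 (MP_600e55_nt). Proof: helper29

Elements fixed by the local group `Dec G O` lie in the `O`-closure of the fixed field.
-/

set_option autoImplicit false

namespace Pool.Helper37.ETC

variable {p : ℕ} [Fact p.Prime] {G K : Type*} [Group G] [TopologicalSpace G]
  [IsTopologicalGroup G] [CompactSpace G] [T2Space G] [TotallyDisconnectedSpace G] [Field K]
  [MulSemiringAction G K] {ζ : K}

/-- D2 (uses G2, O3) -/
theorem incl_of_fixed_dec (Gd : Good p G K ζ) (O : ValuationSubring K) (y : K)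
    (h : ∀ δ ∈ Dec G O, δ • y = y) : InCl O (Fx G) y :=
  incl_of_fixed_dec_of (fun C hC y h => mem_of_fixed Gd.cont Gd.faith C hC y h) O y h

end Pool.Helper37.ETC
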