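import Pool.Agent.Helper37.ETC.Defs

/-!
# ETC blocks D1, D2, D3, D4 (MP_600e55_nt). Proof: helper29

The local group `Dec G O` and the decomposition group `Zg G O` are closed, elements fixed by
`Dec G O` lie in the closure of the fixed field, `Zg G O ≤ Dec G O`, and `Dec G O` depends only on
the topology.
-/

set_option autoImplicit false

namespace Pool.Helper37.ETC

section Val

variable {K : Type*} [Field K]

theorem exists_pi (O : ValuationSubring K) (hO : O ≠ ⊤) : ∃ π : K, π ≠ 0 ∧ π ∈ O ∧ π⁻¹ ∉ O := by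
  obtain ⟨t, ht⟩ : ∃ t : K, t ∉ O := by
    by_contra hcon
    push Not at hcon
    exact hO (le_antisymm (ValuationSubring.le_top _) fun t _ => hcon t)
  have ht0 : t ≠ 0 := by rintro rfl; exact ht O.zero_mem
  refine ⟨t⁻¹, inv_ne_zero ht0, (O.mem_or_inv_mem t).resolve_left ht, ?_⟩
  rwa [inv_inv]

theorem one_sub_unit (O : ValuationSubring K) {π s : K} (hπ : π ∈ O) (hπ' : π⁻¹ ∉ O)
    (hs : s ∈ O) : 1 - π * s ≠ 0 ∧ (1 - π * s)⁻¹ ∈ O := by
  have hπ0 : π ≠ 0 := by
    rintro rfl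
    rw [inv_zero] at hπ'
    exact hπ' O.zero_mem
  have hne : 1 - π * s ≠ 0 := by
    intro h
    apply hπ'
    have h1 : π * s = 1 := (sub_eq_zero.mp h).symm
    have h2 : π⁻¹ = s := by
      rw [inv_eq_of_mul_eq_one_right h1]
    rwa [h2]
  refine ⟨hne, ?_⟩
  by_cases hs0 : s = 0
  · rw [hs0, mul_zero, sub_zero, inv_one]
    exact O.one_mem
  have hr0 : π * s ≠ 0 := mul_ne_zero hπ0 hs0
  have h3 : (1 - π * s) / (π * s) ∉ O := by
    intro h
    apply hπ'
    have h4 : π⁻¹ = s * ((1 - π * s) / (π * s) + 1) := by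
      field_simp
      ring
    rw [h4]
    exact O.mul_mem _ _ hs (O.add_mem _ _ h O.one_mem)
  have h5 : ((1 - π * s) / (π * s))⁻¹ ∈ O := (O.mem_or_inv_mem _).resolve_left h3
  have h6 : (1 - π * s)⁻¹ = 1 + ((1 - π * s) / (π * s))⁻¹ := by
    rw [inv_div]
    field_simp
    ring
  rw [h6]
  exact O.add_mem _ _ O.one_mem h5

theorem exists_common (O : ValuationSubring K) {a b : K} (ha : a ≠ 0) (hb : b ≠ 0) :
    ∃ c : K, c ≠ 0 ∧ (∃ s ∈ O, c = a * s) ∧ ∃ s ∈ O, c = b * s := by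
  rcases O.mem_or_inv_mem (a / b) with h | h
  · exact ⟨a, ha, ⟨1, O.one_mem, (mul_one a).symm⟩, a / b, h, by field_simp⟩
  · exact ⟨b, hb, ⟨(a / b)⁻¹, h, by field_simp⟩, 1, O.one_mem, (mul_one b).symm⟩

/-- dependent rings have the same closures. -/
theorem inCl_iff_of_le {O O' : ValuationSubring K} (h : O ≤ O') (hO : O' ≠ ⊤) (E : Set K)
    (x : K) : InCl O E x ↔ InCl O' E x := by
  constructor
  · intro hx c hc
    obtain ⟨e, he, t, ht, hxe⟩ := hx c hc
    exact ⟨e, he, t, h ht, hxe⟩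
  · intro hx c hc
    obtain ⟨π, hπ0, hπ, hπ'⟩ := exists_pi O' hO
    obtain ⟨e, he, t, ht, hxe⟩ := hx (c * π) (mul_ne_zero hc hπ0)
    refine ⟨e, he, π * t, ?_, by rw [hxe, mul_assoc]⟩
    by_cases ht0 : t = 0
    · rw [ht0, mul_zero]
      exact O.zero_mem
    rcases O.mem_or_inv_mem (π * t) with h1 | h1
    · exact h1
    · exfalso
      have h2 : (π * t)⁻¹ ∈ O' := h h1
      apply hπ'
      have h3 : π⁻¹ = t * (π * t)⁻¹ := by field_simp
      rw [h3]
      exact O'.mul_mem _ _ ht h2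

/-- the closure of a subfield is a subfield. -/
def clSub (O : ValuationSubring K) (E : Subfield K) : Subfield K where
  carrier := {x | InCl O (E : Set K) x}
  zero_mem' := fun c _ => ⟨0, E.zero_mem, 0, O.zero_mem, by ring⟩
  one_mem' := fun c _ => ⟨1, E.one_mem, 0, O.zero_mem, by ring⟩
  add_mem' := by
    intro x y hx hy c hc
    obtain ⟨e, he, t, ht, hxe⟩ := hx c hc
    obtain ⟨e', he', t', ht', hye⟩ := hy c hc
    exact ⟨e + e', E.add_mem he he', t + t', O.add_mem _ _ ht ht', by rw [hxe, hye]; ring⟩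
  neg_mem' := by
    intro x hx c hc
    obtain ⟨e, he, t, ht, hxe⟩ := hx c hc
    exact ⟨-e, E.neg_mem he, -t, O.neg_mem _ ht, by rw [hxe]; ring⟩
  mul_mem' := by
    intro x y hx hy c hc
    by_cases hy0 : y = 0
    · exact ⟨0, E.zero_mem, 0, O.zero_mem, by rw [hy0]; ring⟩
    obtain ⟨e, he, t, ht, hxe⟩ := hx (c / y) (div_ne_zero hc hy0)
    by_cases he0 : e = 0
    · refine ⟨0, E.zero_mem, t, ht, ?_⟩
      rw [hxe, he0]
      field_simp
      ring
    obtain ⟨e', he', t', ht', hye⟩ := hy (c / e) (div_ne_zero hc he0)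
    refine ⟨e * e', E.mul_mem he he', t + t', O.add_mem _ _ ht ht', ?_⟩
    have h1 : x * y = e * y + c * t := by
      rw [hxe]
      field_simp
    have h2 : e * y = e * e' + c * t' := by
      rw [hye]
      field_simp
    rw [h1, h2]
    ring
  inv_mem' := by
    intro x hx c hc
    by_cases hO : O = ⊤
    · exact ⟨0, E.zero_mem, x⁻¹ / c, by rw [hO]; exact ValuationSubring.mem_top _, by field_simp; ring⟩
    by_cases hx0 : x = 0
    · exact ⟨0, E.zero_mem, 0, O.zero_mem, by rw [hx0, inv_zero]; ring⟩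
    obtain ⟨π, hπ0, hπ, hπ'⟩ := exists_pi O hO
    obtain ⟨c1, hc1, ⟨s', hs', hcs'⟩, s, hs, hcs⟩ := exists_common O
      (mul_ne_zero hc (pow_ne_zero 2 hx0)) (mul_ne_zero hx0 hπ0)
    obtain ⟨e, he, t, ht, hxe⟩ := hx c1 hc1
    obtain ⟨hu, hu'⟩ := one_sub_unit O hπ hπ' (O.mul_mem _ _ hs ht)
    have h1 : e = x * (1 - π * (s * t)) := by
      have h2 : e = x - c1 * t := by rw [eq_sub_iff_add_eq]; exact hxe.symm
      rw [h2, hcs]
      ring
    have he0 : e ≠ 0 := by rw [h1]; exact mul_ne_zero hx0 hu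
    refine ⟨e⁻¹, E.inv_mem he, -(s' * t * (1 - π * (s * t))⁻¹), ?_, ?_⟩
    · exact O.neg_mem _ (O.mul_mem _ _ (O.mul_mem _ _ hs' ht) hu')
    · have h3 : x - e = c * x ^ 2 * s' * t := by
        have h4 : x - e = c1 * t := by rw [sub_eq_iff_eq_add, add_comm]; exact hxe
        rw [h4, hcs']
      have h5 : x⁻¹ = e⁻¹ - (x - e) / (e * x) := by
        field_simp
        ring
      rw [h5, h3, h1]
      field_simp
      ring

end Val

section Galois

variable {p : ℕ} [Fact p.Prime] {G K : Type*} [Group G] [TopologicalSpace G]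
  [IsTopologicalGroup G] [CompactSpace G] [T2Space G] [TotallyDisconnectedSpace G] [Field K]
  [MulSemiringAction G K] {ζ : K}

omit [CompactSpace G] [T2Space G] [TotallyDisconnectedSpace G] in
theorem isOpen_smul_mem (hc : ∀ x : K, IsOpen {σ : G | σ • x = x}) (S : Set K) (x : K) :
    IsOpen {σ : G | σ • x ∈ S} := by
  rw [isOpen_iff_mem_nhds]
  intro σ hσ
  have h1 : IsOpen ((fun τ : G => σ⁻¹ * τ) ⁻¹' {τ : G | τ • x = x}) :=
    (hc x).preimage (continuous_const.mul continuous_id)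
  refine Filter.mem_of_superset (h1.mem_nhds ?_) ?_
  · simp
  · intro τ hτ
    have h2 : (σ⁻¹ * τ) • x = x := hτ
    have h3 : τ • x = σ • x := by
      have h4 : τ = σ * (σ⁻¹ * τ) := by group
      rw [h4, mul_smul, h2]
    change τ • x ∈ S
    rw [h3]
    exact hσ

omit [CompactSpace G] [T2Space G] [TotallyDisconnectedSpace G] in
theorem isClosed_smul_mem (hc : ∀ x : K, IsOpen {σ : G | σ • x = x}) (S : Set K) (x : K) :
    IsClosed {σ : G | σ • x ∈ S} := by
  rw [← isOpen_compl_iff]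
  exact isOpen_smul_mem hc Sᶜ x

/-- D1 -/
theorem dec_closed (hc : ∀ x : K, IsOpen {σ : G | σ • x = x}) (O : ValuationSubring K) :
    IsClosed (Dec G O : Set G) := by
  have h1 : (Dec G O : Set G) = ⋂ (x : K) (_ : InCl O (Fx G) x), {σ : G | σ • x ∈ ({x} : Set K)} := by
    ext σ
    simp only [Set.mem_iInter]
    rfl
  rw [h1]
  exact isClosed_iInter fun x => isClosed_iInter fun _ => isClosed_smul_mem hc _ x

/-- D1' -/
theorem zg_closed (hc : ∀ x : K, IsOpen {σ : G | σ • x = x}) (O : ValuationSubring K) :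
    IsClosed (Zg G O : Set G) := by
  have h1 : (Zg G O : Set G) = ⋂ x : K, {σ : G | σ • x ∈ {y : K | x ∈ O ↔ y ∈ O}} := by
    ext σ
    simp only [Set.mem_iInter]
    rfl
  rw [h1]
  exact isClosed_iInter fun x => isClosed_smul_mem hc _ x

/-- D2 with G2 as a hypothesis -/
theorem incl_of_fixed_dec_of (hG2 : ∀ (C : Subfield K) (_ : ∀ x ∈ (Fx G : Set K), x ∈ C) (y : K)
    (_ : ∀ σ : G, (∀ x ∈ C, σ • x = x) → σ • y = y), y ∈ C)
    (O : ValuationSubring K) (y : K)
    (h : ∀ δ ∈ Dec G O, δ • y = y) : InCl O (Fx G) y := by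
  have h1 := hG2 (clSub O (Fxs G K)) (fun x hx => fun c _ => ⟨x, hx, 0, O.zero_mem, by ring⟩) y
    (fun σ hσ => h σ fun x hx => hσ x hx)
  exact h1

/-- D3 -/
theorem zg_le_dec (O : ValuationSubring K) (hO : O ≠ ⊤) : Zg G O ≤ Dec G O := by
  intro σ hσ x hx
  by_contra hne
  obtain ⟨π, hπ0, hπ, hπ'⟩ := exists_pi O hO
  have hw : σ • x - x ≠ 0 := sub_ne_zero.mpr hne
  set w := σ • x - x with hwdef
  obtain ⟨d, hd0, ⟨s, hs, hds⟩, s', hs', hds'⟩ := exists_common O (mul_ne_zero hw hπ0)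
    (one_ne_zero (α := K))
  have hdO : d ∈ O := by rw [hds', one_mul]; exact hs'
  have hσd : σ⁻¹ • d ∈ O := by
    have := (hσ (σ⁻¹ • d)).mpr
    rw [smul_inv_smul] at this
    exact this hdO
  have hσd2 : σ • d ∈ O := (hσ d).mp hdO
  have hσd0 : σ⁻¹ • d ≠ 0 := by
    intro h
    apply hd0
    have := congrArg (fun z => σ • z) h
    simpa using this
  obtain ⟨e, he, t, ht, hxe⟩ := hx (d * σ⁻¹ • d) (mul_ne_zero hd0 hσd0)
  have h1 : σ • x = e + (σ • d * d) * σ • t := by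
    rw [hxe, smul_add, he σ, smul_mul', smul_mul', smul_inv_smul]
  have h2 : w = d * (σ • d * σ • t - σ⁻¹ • d * t) := by
    rw [hwdef, h1, hxe]
    ring
  have hσt : σ • t ∈ O := (hσ t).mp ht
  have h3 : σ • d * σ • t - σ⁻¹ • d * t ∈ O := by
    rw [sub_eq_add_neg]
    exact O.add_mem _ _ (O.mul_mem _ _ hσd2 hσt) (O.neg_mem _ (O.mul_mem _ _ hσd ht))
  apply hπ'
  have h4 : w = w * π * (s * (σ • d * σ • t - σ⁻¹ • d * t)) := by
    rw [← mul_assoc, ← hds]
    exact h2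
  have h5 : π⁻¹ = s * (σ • d * σ • t - σ⁻¹ • d * t) := by
    have h6 : 1 = π * (s * (σ • d * σ • t - σ⁻¹ • d * t)) := by
      have h7 : w * 1 = w * (π * (s * (σ • d * σ • t - σ⁻¹ • d * t))) := by
        rw [mul_one, ← mul_assoc]
        exact h4
      exact mul_left_cancel₀ hw h7
    exact inv_eq_of_mul_eq_one_right h6.symm
  rw [h5]
  exact O.mul_mem _ _ hs h3

/-- D4 -/
theorem dec_eq_of_le (O O' : ValuationSubring K) (h : O ≤ O') (hO : O' ≠ ⊤) :
    Dec G O = Dec G O' := by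
  ext σ
  constructor
  · intro hσ x hx
    exact hσ x ((inCl_iff_of_le h hO _ x).mpr hx)
  · intro hσ x hx
    exact hσ x ((inCl_iff_of_le h hO _ x).mp hx)

end Galois

end Pool.Helper37.ETC
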